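import Pool.Agent.Q106.PK.Stm

/-!
# Project PK: job COMP (the components after removing a cell)
-/

set_option autoImplicit false

namespace Pool.Agent.Q44.PK

open Pool.Agent.Q106.PK Relation

/-- a step inside `P` -/
def St (P : Finset (ℤ × ℤ)) (a b : ℤ × ℤ) : Prop := a ∈ P ∧ b ∈ P ∧ CAdj a b

theorem rt_symm {P : Finset (ℤ × ℤ)} {a b : ℤ × ℤ} (h : ReflTransGen (St P) a b) :
    ReflTransGen (St P) b a := by
  induction h with
  | refl => exact ReflTransGen.refl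
  | tail _ h2 ih => exact ReflTransGen.head ⟨h2.2.1, h2.1, cadj_symm h2.2.2⟩ ih

theorem rt_mono {P Q : Finset (ℤ × ℤ)} (hPQ : P ⊆ Q) {a b : ℤ × ℤ} (h : ReflTransGen (St P) a b) :
    ReflTransGen (St Q) a b := by
  induction h with
  | refl => exact ReflTransGen.refl
  | tail _ h2 ih => exact ih.tail ⟨hPQ h2.1, hPQ h2.2.1, h2.2.2⟩

open Classical in
/-- the component of `q` in `E` -/
noncomputable def cmp (E : Finset (ℤ × ℤ)) (q : ℤ × ℤ) : Finset (ℤ × ℤ) :=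
  E.filter fun x => ReflTransGen (St E) q x

theorem mem_cmp {E : Finset (ℤ × ℤ)} {q x : ℤ × ℤ} :
    x ∈ cmp E q ↔ x ∈ E ∧ ReflTransGen (St E) q x := by
  classical
  exact Finset.mem_filter

theorem cmp_sub (E : Finset (ℤ × ℤ)) (q : ℤ × ℤ) : cmp E q ⊆ E := fun _ hx => (mem_cmp.1 hx).1

theorem self_cmp {E : Finset (ℤ × ℤ)} {q : ℤ × ℤ} (hq : q ∈ E) : q ∈ cmp E q :=
  mem_cmp.2 ⟨hq, ReflTransGen.refl⟩

theorem closed_cmp {E : Finset (ℤ × ℤ)} {q c d : ℤ × ℤ} (hc : c ∈ cmp E q) (hd : d ∈ E)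
    (h : CAdj c d) : d ∈ cmp E q :=
  mem_cmp.2 ⟨hd, (mem_cmp.1 hc).2.tail ⟨(mem_cmp.1 hc).1, hd, h⟩⟩

theorem reach_cmp {E : Finset (ℤ × ℤ)} {q x : ℤ × ℤ} (h : ReflTransGen (St E) q x) :
    ReflTransGen (St (cmp E q)) q x := by
  induction h with
  | refl => exact ReflTransGen.refl
  | tail h1 h2 ih =>
    exact ih.tail ⟨mem_cmp.2 ⟨h2.1, h1⟩, mem_cmp.2 ⟨h2.2.1, h1.tail h2⟩, h2.2.2⟩

theorem conn_cmp {E : Finset (ℤ × ℤ)} {q : ℤ × ℤ} (hq : q ∈ E) : Conn (cmp E q) := by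
  refine ⟨⟨q, self_cmp hq⟩, fun x hx y hy => ?_⟩
  exact (rt_symm (reach_cmp (mem_cmp.1 hx).2)).trans (reach_cmp (mem_cmp.1 hy).2)

/-- the component of `r` in `P \ {b}` has a cell adjacent to `b` -/
theorem cmp_adj (h1 : S_CUT) {P : Finset (ℤ × ℤ)} {b r : ℤ × ℤ} (hP : Conn P) (hb : b ∈ P)
    (hr : r ∈ P.erase b) : ∃ c ∈ cmp (P.erase b) r, CAdj c b := by
  have hs : cmp (P.erase b) r ⊆ P := (cmp_sub _ _).trans (Finset.erase_subset _ _)
  have hn : cmp (P.erase b) r ≠ P := by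
    intro h
    have : b ∈ cmp (P.erase b) r := by rw [h]; exact hb
    exact Finset.notMem_erase b P (cmp_sub _ _ this)
  obtain ⟨a, ha, b', hb', hb'2, hab⟩ :=
    (h1 P ⟨b, hb⟩).1 hP (cmp (P.erase b) r) hs ⟨r, self_cmp hr⟩ hn
  by_cases hbb : b' = b
  · exact ⟨a, ha, hbb ▸ hab⟩
  · exact absurd (closed_cmp ha (Finset.mem_erase.2 ⟨hbb, hb'⟩) hab) hb'2

theorem t_COMP (h1 : S_CUT) (_h2 : S_UNI) : S_COMP := by
  intro P b q hP hb hq hqb
  have hqE : q ∈ P.erase b := Finset.mem_erase.2 ⟨hqb, hq⟩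
  have hbC : b ∉ cmp (P.erase b) q := fun h => Finset.notMem_erase b P (cmp_sub _ _ h)
  have hbS : b ∈ P \ cmp (P.erase b) q := Finset.mem_sdiff.2 ⟨hb, hbC⟩
  refine ⟨cmp (P.erase b) q, self_cmp hqE, cmp_sub _ _, conn_cmp hqE, ⟨⟨b, hbS⟩, ?_⟩,
    cmp_adj h1 hP hb hqE, fun c hc d hd h => closed_cmp hc hd h⟩
  have key : ∀ r ∈ P \ cmp (P.erase b) q, ReflTransGen (St (P \ cmp (P.erase b) q)) r b := by
    intro r hr
    by_cases hrb : r = b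
    · rw [hrb]
    · obtain ⟨hrP, hrC⟩ := Finset.mem_sdiff.1 hr
      have hrE : r ∈ P.erase b := Finset.mem_erase.2 ⟨hrb, hrP⟩
      obtain ⟨d, hd, hdb⟩ := cmp_adj h1 hP hb hrE
      have hsub : cmp (P.erase b) r ⊆ P \ cmp (P.erase b) q := by
        intro x hx
        refine Finset.mem_sdiff.2 ⟨Finset.mem_of_mem_erase (cmp_sub _ _ hx), fun hx2 => hrC ?_⟩
        exact mem_cmp.2 ⟨hrE, (mem_cmp.1 hx2).2.trans (rt_symm (mem_cmp.1 hx).2)⟩
      have h3 : ReflTransGen (St (P \ cmp (P.erase b) q)) r d :=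
        rt_mono hsub ((conn_cmp hrE).2 r (self_cmp hrE) d hd)
      exact h3.tail ⟨hsub hd, hbS, hdb⟩
  intro x hx y hy
  exact (key x hx).trans (rt_symm (key y hy))

end Pool.Agent.Q44.PK
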